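import Mathlib
import Pool.Agent.Lib_helper38.XA.Defs
import Pool.Agent.Lib_helper10.XO.P3.ZA

/-! # XA, block C1: conservation of atoms is impossible, coloured version (port of XO Part III) -/

set_option autoImplicit false

namespace Pool.Agent.XA

open Finset Pool.Agent.XO

/-- a system of letters: `w x i` is the set of the letters of the `i`-th block which are in `x` -/
structure C1Sys {S : Type} {q : ℕ} (Λ D M : ℕ) (e : S → Fin q) (σ : S → S → S × S)
    (w : S → ℕ → Finset (Fin Λ)) (y : ℕ → S) : Prop where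
  supp : ∀ b : List Bool, b.length ≤ D → ∀ ι, p3inc (2 ^ b.length) (range M) ι → ∀ i,
    (∀ r, r < 2 ^ b.length → i ≠ ι r) → w (p3T σ b fun r => y (ι r)) i = ∅
  cons : ∀ b : List Bool, b.length < D → ∀ ι, p3inc (2 ^ (b.length + 1)) (range M) ι → ∀ i,
    w (p3T σ (false :: b) fun r => y (ι r)) i ∪ w (p3T σ (true :: b) fun r => y (ι r)) i
      = w (p3T σ b fun r => y (ι (2 * r))) i ∪ w (p3T σ b fun r => y (ι (2 * r + 1))) i
  disj : ∀ b : List Bool, b.length < D → ∀ ι, p3inc (2 ^ (b.length + 1)) (range M) ι → ∀ i,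
    Disjoint (w (p3T σ (false :: b) fun r => y (ι r)) i)
      (w (p3T σ (true :: b) fun r => y (ι r)) i)
  flip : ∀ b : List Bool, b.length < D → ∀ ι, p3inc (2 ^ (b.length + 1)) (range M) ι →
    ¬ (e (p3T σ b fun r => y (ι (2 * r + 1))) = e (p3T σ b fun r => y (ι (2 * r))) ∧
      e (p3T σ (false :: b) fun r => y (ι r)) = e (p3T σ b fun r => y (ι (2 * r))) ∧
      e (p3T σ (true :: b) fun r => y (ι r)) = e (p3T σ b fun r => y (ι (2 * r))))
  uniq : ∀ b b' : List Bool, b.length ≤ D → b'.length ≤ D → ∀ ι ι',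
    p3inc (2 ^ b.length) (range M) ι → p3inc (2 ^ b'.length) (range M) ι' →
    (∀ i, w (p3T σ b fun r => y (ι r)) i = w (p3T σ b' fun r => y (ι' r)) i) →
    e (p3T σ b fun r => y (ι r)) = e (p3T σ b' fun r => y (ι' r))

/-- `b` is homogeneous on `X`: the colour is `ε`, the word is `ω` -/
def C1Hom {S : Type} {q Λ : ℕ} (e : S → Fin q) (σ : S → S → S × S) (w : S → ℕ → Finset (Fin Λ))
    (y : ℕ → S) (X : Finset ℕ) (b : List Bool) (ω : ℕ → Finset (Fin Λ)) (ε : Fin q) : Prop :=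
  ∀ ι, p3inc (2 ^ b.length) X ι → e (p3T σ b fun r => y (ι r)) = ε ∧
    ∀ r, r < 2 ^ b.length → w (p3T σ b fun r => y (ι r)) (ι r) = ω r

/-- conservation and the sign at the last gate -/
theorem c1_gate {S : Type} {M Λ G q : ℕ} {e : S → Fin q} {σ : S → S → S × S} {K : S → Finset ℕ}
    {y : Fin M → S} (h : CACT Λ G e σ K y) (b : List Bool) (hG : 2 ^ (b.length + 1) ≤ G)
    (ι : ℕ → Fin M)
    (hι : ∀ i j, i < 2 ^ (b.length + 1) → j < 2 ^ (b.length + 1) → ι i = ι j → i = j) :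
    K (p3T σ (false :: b) fun r => y (ι r)) ∪ K (p3T σ (true :: b) fun r => y (ι r))
        = K (p3T σ b fun r => y (ι (2 * r))) ∪ K (p3T σ b fun r => y (ι (2 * r + 1))) ∧
    Disjoint (K (p3T σ (false :: b) fun r => y (ι r)))
      (K (p3T σ (true :: b) fun r => y (ι r))) ∧
    ¬ (e (p3T σ b fun r => y (ι (2 * r + 1))) = e (p3T σ b fun r => y (ι (2 * r))) ∧
      e (p3T σ (false :: b) fun r => y (ι r)) = e (p3T σ b fun r => y (ι (2 * r))) ∧
      e (p3T σ (true :: b) fun r => y (ι r)) = e (p3T σ b fun r => y (ι (2 * r)))) := by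
  obtain ⟨g, c, a0, a1, hg, hr, hne, v0, v1⟩ := ga_pair σ y b ι hι
  have hr3 := Reach.step a0 a1 hne hr
  set c3 : Fin M → S := Function.update (Function.update c a0 (σ (c a0) (c a1)).1) a1
    (σ (c a0) (c a1)).2 with hc3
  have w0 : c3 a0 = (σ (c a0) (c a1)).1 := by
    rw [hc3, Function.update_of_ne hne, Function.update_self]
  have w1 : c3 a1 = (σ (c a0) (c a1)).2 := by
    rw [hc3, Function.update_self]
  have he : ∀ a, a ≠ a0 → a ≠ a1 → c3 a = c a := by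
    intro a h0 h1
    rw [hc3, Function.update_of_ne h1, Function.update_of_ne h0]
  have t0 : p3T σ (false :: b) (fun r => y (ι r)) = c3 a0 := by
    rw [w0, v0, v1]
    rfl
  have t1 : p3T σ (true :: b) (fun r => y (ι r)) = c3 a1 := by
    rw [w1, v0, v1]
    rfl
  rw [t0, t1, ← v0, ← v1]
  have hd := h.disj g (by omega) c hr
  have hd3 := h.disj (g + 1) (by omega) c3 hr3
  have hu : (univ.biUnion fun a => K (c a)) = univ.biUnion fun a => K (c3 a) := by
    rw [h.cons g (by omega) c hr, h.cons (g + 1) (by omega) c3 hr3]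
  refine ⟨?_, hd3 a0 a1 hne, ?_⟩
  · apply Subset.antisymm
    · exact ga_union c c3 a0 a1 hd3 he hu
    · exact ga_union c3 c a0 a1 hd (fun a h0 h1 => (he a h0 h1).symm) hu.symm
  · rw [w0, w1]
    exact h.flip g (by omega) c hr a0 a1 hne

/-- the atoms of a term come from its variables -/
theorem c1_sub {S : Type} {M Λ G q : ℕ} {e : S → Fin q} {σ : S → S → S × S} {K : S → Finset ℕ}
    {y : Fin M → S} (h : CACT Λ G e σ K y) (b : List Bool) (hG : 2 ^ b.length ≤ G)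
    (ι : ℕ → Fin M) (hι : ∀ i j, i < 2 ^ b.length → j < 2 ^ b.length → ι i = ι j → i = j) :
    K (p3T σ b fun r => y (ι r)) ⊆ (range (2 ^ b.length)).biUnion fun r => K (y (ι r)) := by
  induction b generalizing ι with
  | nil =>
    intro x hx
    rw [mem_biUnion]
    exact ⟨0, by simp, hx⟩
  | cons β b ih =>
    have hp := ga_pow b.length
    have hpos : 0 < 2 ^ b.length := Nat.two_pow_pos _
    have hl : (β :: b).length = b.length + 1 := rfl
    rw [hl] at hG hι ⊢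
    have hg := (c1_gate h b hG ι hι).1
    have hι0 : ∀ i j, i < 2 ^ b.length → j < 2 ^ b.length → ι (2 * i) = ι (2 * j) → i = j := by
      intro i j hi hj h
      have := hι (2 * i) (2 * j) (by omega) (by omega) h
      omega
    have hι1 : ∀ i j, i < 2 ^ b.length → j < 2 ^ b.length →
        ι (2 * i + 1) = ι (2 * j + 1) → i = j := by
      intro i j hi hj h
      have := hι (2 * i + 1) (2 * j + 1) (by omega) (by omega) h
      omega
    have i0 := ih (by omega) (fun r => ι (2 * r)) hι0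
    have i1 := ih (by omega) (fun r => ι (2 * r + 1)) hι1
    intro x hx
    have hx2 : x ∈ K (p3T σ (false :: b) fun r => y (ι r)) ∪
        K (p3T σ (true :: b) fun r => y (ι r)) := by
      rw [mem_union]
      cases β
      · exact Or.inl hx
      · exact Or.inr hx
    rw [hg, mem_union] at hx2
    rw [mem_biUnion]
    rcases hx2 with hx2 | hx2
    · have := i0 hx2
      rw [mem_biUnion] at this
      obtain ⟨r, hr, hxr⟩ := this
      rw [mem_range] at hr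
      exact ⟨2 * r, mem_range.2 (by omega), hxr⟩
    · have := i1 hx2
      rw [mem_biUnion] at this
      obtain ⟨r, hr, hxr⟩ := this
      rw [mem_range] at hr
      exact ⟨2 * r + 1, mem_range.2 (by omega), hxr⟩

/-- elements with the same atoms have the same sign -/
theorem c1_uniq {S : Type} {M Λ G q : ℕ} {e : S → Fin q} {σ : S → S → S × S} {K : S → Finset ℕ}
    {y : Fin M → S} (h : CACT Λ G e σ K y) (b b' : List Bool) (hG : 2 ^ b.length ≤ G)
    (hG' : 2 ^ b'.length ≤ G) (ι ι' : ℕ → Fin M)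
    (hι : ∀ i j, i < 2 ^ b.length → j < 2 ^ b.length → ι i = ι j → i = j)
    (hι' : ∀ i j, i < 2 ^ b'.length → j < 2 ^ b'.length → ι' i = ι' j → i = j)
    (hK : K (p3T σ b fun r => y (ι r)) = K (p3T σ b' fun r => y (ι' r))) :
    e (p3T σ b fun r => y (ι r)) = e (p3T σ b' fun r => y (ι' r)) := by
  obtain ⟨c, a, hr, _, v, _⟩ := p3_reach σ y b ι hι 0 y Reach.zero
  obtain ⟨c', a', hr', _, v', _⟩ := p3_reach σ y b' ι' hι' 0 y Reach.zero
  rw [← v, ← v'] at hK ⊢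
  exact h.uniq _ (by omega) _ (by omega) c c' hr hr' a a' hK

/-- from atoms to letters -/
theorem c1_sys {S : Type} {M Λ G D : ℕ} (hM : 0 < M) (hG : 2 ^ D ≤ G) {q : ℕ} {e : S → Fin q}
    {σ : S → S → S × S} {K : S → Finset ℕ} {y : Fin M → S} (h : CACT Λ G e σ K y) :
    ∃ (w : S → ℕ → Finset (Fin Λ)) (y' : ℕ → S), C1Sys Λ D M e σ w y' := by
  classical
  have hdis : ∀ a b : Fin M, a ≠ b → Disjoint (K (y a)) (K (y b)) := fun a b hab =>
    h.disj 0 (Nat.zero_le _) y Reach.zero a b hab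
  refine ⟨fun x i => sy_L (fun j => K (y j)) (K x) i, fun i => y (sy_fi hM i), ?_⟩
  refine ⟨?_, ?_, ?_, ?_, ?_⟩
  · -- supp
    intro b hb ι hι i hi
    refine sy_L_empty _ _ _ fun hiM => ?_
    have hsub := c1_sub h b (sy_pow_le hb hG) (fun r => sy_fi hM (ι r))
      (fun i j hi hj => sy_fi_inj hM hι i j hi hj)
    rw [Finset.disjoint_left]
    intro a ha ha'
    have h1 := hsub ha
    rw [Finset.mem_biUnion] at h1
    obtain ⟨r, hr, har⟩ := h1
    rw [Finset.mem_range] at hr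
    have hrM := Finset.mem_range.1 (hι.1 r hr)
    rw [sy_fi_eq hM hrM] at har
    refine (Finset.disjoint_left.1 (hdis ⟨i, hiM⟩ ⟨ι r, hrM⟩ ?_)) ha' har
    rw [Ne, Fin.mk.injEq]
    exact hi r hr
  · -- cons
    intro b hb ι hι i
    have hg := (c1_gate h b (sy_pow_le hb hG) (fun r => sy_fi hM (ι r))
      (fun i j hi hj => sy_fi_inj hM hι i j hi hj)).1
    show (sy_L _ _ i : Finset (Fin Λ)) ∪ sy_L _ _ i = sy_L _ _ i ∪ sy_L _ _ i
    rw [← sy_L_union, ← sy_L_union, hg]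
  · -- disj
    intro b hb ι hι i
    have hg := (c1_gate h b (sy_pow_le hb hG) (fun r => sy_fi hM (ι r))
      (fun i j hi hj => sy_fi_inj hM hι i j hi hj)).2.1
    exact sy_L_disj _ _ _ hg i
  · -- flip
    intro b hb ι hι
    exact (c1_gate h b (sy_pow_le hb hG) (fun r => sy_fi hM (ι r))
      (fun i j hi hj => sy_fi_inj hM hι i j hi hj)).2.2
  · -- uniq
    intro b b' hb hb' ι ι' hι hι' hw
    have key : ∀ (b b' : List Bool), b.length ≤ D → b'.length ≤ D → ∀ ι ι' : ℕ → ℕ,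
        p3inc (2 ^ b.length) (range M) ι → p3inc (2 ^ b'.length) (range M) ι' →
        (∀ i, (sy_L (fun j => K (y j)) (K (p3T σ b fun r => y (sy_fi hM (ι r)))) i :
          Finset (Fin Λ)) =
          sy_L (fun j => K (y j)) (K (p3T σ b' fun r => y (sy_fi hM (ι' r)))) i) →
        K (p3T σ b fun r => y (sy_fi hM (ι r))) ⊆
          K (p3T σ b' fun r => y (sy_fi hM (ι' r))) := by
      intro b b' hb hb' ι ι' hι hι' hw a ha
      have h1 := c1_sub h b (sy_pow_le hb hG) (fun r => sy_fi hM (ι r))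
        (fun i j hi hj => sy_fi_inj hM hι i j hi hj) ha
      rw [Finset.mem_biUnion] at h1
      obtain ⟨r, hr, har⟩ := h1
      exact sy_L_inj (fun j => K (y j)) h.card _ _ (sy_fi hM (ι r)) (hw _) a har ha
    refine c1_uniq h b b' (sy_pow_le hb hG) (sy_pow_le hb' hG) (fun r => sy_fi hM (ι r))
      (fun r => sy_fi hM (ι' r)) (fun i j hi hj => sy_fi_inj hM hι i j hi hj)
      (fun i j hi hj => sy_fi_inj hM hι' i j hi hj) ?_
    exact Finset.Subset.antisymm (key b b' hb hb' ι ι' hι hι' hw)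
      (key b' b hb' hb ι' ι hι' hι fun i => (hw i).symm)

theorem c1_same {S : Type} {Λ D M : ℕ} {q : ℕ} {e : S → Fin q} {σ : S → S → S × S}
    {w : S → ℕ → Finset (Fin Λ)} {y : ℕ → S} (h : C1Sys Λ D M e σ w y) (X : Finset ℕ)
    (hX : X ⊆ range M) (b : List Bool) (β : Bool) (hb : b.length < D)
    (ω ω' : ℕ → Finset (Fin Λ)) (ε ε' : Fin q) (hω : C1Hom e σ w y X b ω ε)
    (hω' : C1Hom e σ w y X (β :: b) ω' ε') (f : ℕ → ℕ)
    (hf : p3iso (2 ^ b.length) ω (2 * 2 ^ b.length) ω' f)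
    (hc : 2 * 2 ^ b.length * (2 ^ b.length + 1) + 2 ^ b.length < X.card) : ε = ε' := by
  obtain ⟨ι, J, hι, hJ, h1, h2, h3⟩ := p3_geom (2 ^ b.length) (p3P (2 ^ b.length) ω)
    (p3P (2 * 2 ^ b.length) ω') (filter_subset _ _) (filter_subset _ _) f hf.maps hf.mono
    hf.surj X hc
  have hlen : 2 ^ (β :: b).length = 2 * 2 ^ b.length := by
    rw [List.length_cons, pow_succ, mul_comm]
  have hι' : p3inc (2 ^ (β :: b).length) X ι := by rw [hlen]; exact hι
  obtain ⟨he', hw'⟩ := hω' ι hι'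
  obtain ⟨he, hw⟩ := hω J hJ
  rw [hlen] at hw'
  rw [← he, ← he']
  have hlD : (β :: b).length ≤ D := by rw [List.length_cons]; omega
  refine h.uniq b (β :: b) hb.le hlD J ι (sa_inc_sub hX hJ) (sa_inc_sub hX hι') ?_
  intro i
  by_cases hi : ∃ j, j < 2 * 2 ^ b.length ∧ i = ι j
  · obtain ⟨j, hj, rfl⟩ := hi
    rw [hw' j hj]
    by_cases hq : j ∈ p3P (2 * 2 ^ b.length) ω'
    · obtain ⟨r, hr, hfr⟩ := hf.surj j hq
      have hrn : r < 2 ^ b.length := mem_range.1 (mem_filter.1 hr).1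
      have hJr := h1 r hr
      rw [hfr] at hJr
      rw [← hJr, hw r hrn, ← hf.letter r hr, hfr]
    · have hem : ω' j = ∅ := by
        by_contra hne
        exact hq (mem_filter.2 ⟨mem_range.2 hj, nonempty_iff_ne_empty.2 hne⟩)
      rw [hem]
      exact h.supp b hb.le J (sa_inc_sub hX hJ) _ fun r hr => h3 j hj hq r hr
  · have hni : ∀ j, j < 2 ^ (β :: b).length → i ≠ ι j := by
      intro j hj hij
      rw [hlen] at hj
      exact hi ⟨j, hj, hij⟩
    rw [h.supp (β :: b) hlD ι (sa_inc_sub hX hι') i hni]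
    by_cases hi2 : ∃ r, r < 2 ^ b.length ∧ i = J r
    · obtain ⟨r, hr, rfl⟩ := hi2
      rw [hw r hr]
      by_contra hne
      have hrP : r ∈ p3P (2 ^ b.length) ω :=
        mem_filter.2 ⟨mem_range.2 hr, nonempty_iff_ne_empty.2 hne⟩
      have hfQ := hf.maps r hrP
      exact hi ⟨f r, mem_range.1 (mem_filter.1 hfQ).1, h1 r hrP⟩
    · exact h.supp b hb.le J (sa_inc_sub hX hJ) _ fun r hr hir => hi2 ⟨r, hr, hir⟩



/-- both children of a term are homogeneous on a large subset -/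
theorem c1_hom (Λ q k N' : ℕ) : ∃ N : ℕ, ∀ {S : Type} (e : S → Fin q) (σ : S → S → S × S)
    (w : S → ℕ → Finset (Fin Λ)) (y : ℕ → S),
    ∀ (X : Finset ℕ), N ≤ X.card → ∀ b : List Bool, b.length = k →
    ∃ X' ⊆ X, N' ≤ X'.card ∧ ∃ ω ε, C1Hom e σ w y X' b ω ε := by
  classical
  obtain ⟨N, hN⟩ := p3_ramsey (Fin q × (Fin (2 ^ k) → Finset (Fin Λ))) (2 ^ k) N'
  refine ⟨N, ?_⟩
  intro S e σ w y X hX b hb
  obtain ⟨X', hX', hcard, hχ⟩ := hN X hX
    (fun ι => (e (p3T σ b fun r => y (ι r)),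
      fun r : Fin (2 ^ k) => w (p3T σ b fun r => y (ι r)) (ι r))) (by
    intro ι ι' hιι
    have hT : (p3T σ b fun r => y (ι r)) = p3T σ b fun r => y (ι' r) :=
      p3_T_congr σ b _ _ (fun i hi => by
        rw [hb] at hi
        show y (ι i) = y (ι' i)
        rw [hιι i hi])
    refine Prod.ext ?_ ?_
    · show e (p3T σ b fun r => y (ι r)) = e (p3T σ b fun r => y (ι' r))
      rw [hT]
    · funext r
      show w (p3T σ b fun r => y (ι r)) (ι r) = w (p3T σ b fun r => y (ι' r)) (ι' r)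
      rw [hT, hιι r r.2])
  refine ⟨X', hX', hcard, ?_⟩
  by_cases hex : ∃ ι0, p3inc (2 ^ k) X' ι0
  · obtain ⟨ι0, hι0⟩ := hex
    refine ⟨fun r => w (p3T σ b fun r => y (ι0 r)) (ι0 r), e (p3T σ b fun r => y (ι0 r)), ?_⟩
    intro ι hι
    rw [hb] at hι
    have h1 := hχ ι ι0 hι hι0
    refine ⟨congrArg Prod.fst h1, ?_⟩
    intro r hr
    rw [hb] at hr
    exact congrFun (congrArg Prod.snd h1) ⟨r, hr⟩
  · refine ⟨fun _ => ∅, e (y 0), ?_⟩
    intro ι hι
    rw [hb] at hι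
    exact absurd ⟨ι, hι⟩ hex

theorem c1_words {S : Type} {Λ D M : ℕ} {q : ℕ} {e : S → Fin q} {σ : S → S → S × S}
    {w : S → ℕ → Finset (Fin Λ)} {y : ℕ → S} (h : C1Sys Λ D M e σ w y) (X : Finset ℕ)
    (hX : X ⊆ range M) (b : List Bool) (hb : b.length < D)
    (ω ω0 ω1 : ℕ → Finset (Fin Λ)) (ε ε0 ε1 : Fin q) (hω : C1Hom e σ w y X b ω ε)
    (hω0 : C1Hom e σ w y X (false :: b) ω0 ε0) (hω1 : C1Hom e σ w y X (true :: b) ω1 ε1)
    (hc : 2 ^ (b.length + 1) ≤ X.card) :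
    (∀ j, j < 2 * 2 ^ b.length → ω0 j ∪ ω1 j = ω (j / 2)) ∧
    (∀ j, j < 2 * 2 ^ b.length → Disjoint (ω0 j) (ω1 j)) ∧ ¬ (ε0 = ε ∧ ε1 = ε) := by
  obtain ⟨ι, hι⟩ := wo_inc X hc
  have h2 : 2 ^ (b.length + 1) = 2 * 2 ^ b.length := by ring
  have hι0 : p3inc (2 ^ b.length) X fun r => ι (2 * r) :=
    ⟨fun i hi => hι.1 _ (by omega), fun i j hij hj => hι.2 _ _ (by omega) (by omega)⟩
  have hι1 : p3inc (2 ^ b.length) X fun r => ι (2 * r + 1) :=
    ⟨fun i hi => hι.1 _ (by omega), fun i j hij hj => hι.2 _ _ (by omega) (by omega)⟩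
  have hM : ∀ {n : ℕ} {κ : ℕ → ℕ}, p3inc n X κ → p3inc n (range M) κ :=
    fun hκ => ⟨fun i hi => hX (hκ.1 i hi), hκ.2⟩
  have hne : ∀ i j, i < 2 ^ (b.length + 1) → j < 2 ^ (b.length + 1) → i ≠ j → ι i ≠ ι j := by
    intro i j hi hj hij
    rcases Nat.lt_or_gt_of_ne hij with h3 | h3
    · exact (hι.2 i j h3 hj).ne
    · exact (hι.2 j i h3 hi).ne'
  obtain ⟨a1, a2⟩ := hω0 ι hι
  obtain ⟨b1, b2⟩ := hω1 ι hι
  obtain ⟨c1, c2⟩ := hω _ hι0
  obtain ⟨d1, d2⟩ := hω _ hι1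
  have k1 := h.cons b hb ι (hM hι)
  have k2 := h.disj b hb ι (hM hι)
  have k3 := h.flip b hb ι (hM hι)
  refine ⟨fun j hj => ?_, fun j hj => ?_, ?_⟩
  · have e1 := a2 j (by show j < 2 ^ (b.length + 1); omega)
    have e2 := b2 j (by show j < 2 ^ (b.length + 1); omega)
    rw [← e1, ← e2, k1]
    rcases Nat.even_or_odd' j with ⟨r, rfl | rfl⟩
    · rw [h.supp b hb.le _ (hM hι1) (ι (2 * r)) fun r' hr' =>
        hne _ _ (by omega) (by omega) (by omega), Finset.union_empty, c2 r (by omega)]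
      congr 1
      omega
    · rw [h.supp b hb.le _ (hM hι0) (ι (2 * r + 1)) fun r' hr' =>
        hne _ _ (by omega) (by omega) (by omega), Finset.empty_union, d2 r (by omega)]
      congr 1
      omega
  · have e1 := a2 j (by show j < 2 ^ (b.length + 1); omega)
    have e2 := b2 j (by show j < 2 ^ (b.length + 1); omega)
    rw [← e1, ← e2]
    exact k2 _
  · rw [a1, b1, c1, d1] at k3
    exact fun hk => k3 ⟨rfl, hk⟩

theorem c1_hom_sub {Λ : ℕ} {S : Type} {q : ℕ} {e : S → Fin q} {σ : S → S → S × S}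
    {w : S → ℕ → Finset (Fin Λ)} {y : ℕ → S} {X Y : Finset ℕ} (h : X ⊆ Y) {b : List Bool}
    {ω : ℕ → Finset (Fin Λ)} {ε : Fin q} (hY : C1Hom e σ w y Y b ω ε) : C1Hom e σ w y X b ω ε :=
  fun ι hι => hY ι (za_inc_sub h hι)

/-- the statement of the induction -/
def c1P (Λ q m k N : ℕ) : Prop :=
  ∀ (S : Type) (D M : ℕ) (e : S → Fin q) (σ : S → S → S × S) (w : S → ℕ → Finset (Fin Λ))
    (y : ℕ → S), C1Sys Λ D M e σ w y → k + m + 1 ≤ D → ∀ X : Finset ℕ, X ⊆ range M →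
    N ≤ X.card → ∀ b : List Bool, b.length = k → ∀ (ω : ℕ → Finset (Fin Λ)) (ε : Fin q),
    C1Hom e σ w y X b ω ε → p3lam (2 ^ k) ω ≤ Λ → zaMeas Λ (2 ^ k) ω ≤ m → False

theorem c1_step (Λ q m k N1 : ℕ) (hIH : m = 0 ∨ c1P Λ q (m - 1) (k + 1) N1) :
    ∃ N, c1P Λ q m k N := by
  obtain ⟨N0, hN0⟩ := c1_hom Λ q (k + 1)
    (max N1 (2 * 2 ^ k * (2 ^ k + 1) + 2 ^ k + 1 + 2 ^ (k + 1)))
  obtain ⟨N, hN⟩ := c1_hom Λ q (k + 1) N0
  refine ⟨N, ?_⟩
  intro S D M e σ w y h hD X hX hXN b hb ω ε hω hlam hmeas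
  subst hb
  obtain ⟨X0, hX0, hX0c, ω0, ε0, hom0⟩ := hN e σ w y X hXN (false :: b) rfl
  obtain ⟨X1, hX1, hX1c, ω1, ε1, hom1⟩ := hN0 e σ w y X0 hX0c (true :: b) rfl
  have hom0' := c1_hom_sub hX1 hom0
  have hX1X : X1 ⊆ X := hX1.trans hX0
  have homb := c1_hom_sub hX1X hω
  have hX1M : X1 ⊆ range M := hX1X.trans hX
  have hbD : b.length < D := by omega
  have hpow : 2 ^ (b.length + 1) = 2 * 2 ^ b.length := by rw [pow_succ, mul_comm]
  have hcard1 : N1 ≤ X1.card := (le_max_left _ _).trans hX1c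
  have hcard2 : 2 * 2 ^ b.length * (2 ^ b.length + 1) + 2 ^ b.length + 1 + 2 ^ (b.length + 1)
      ≤ X1.card := (le_max_right _ _).trans hX1c
  obtain ⟨hu, hd, hsg⟩ := c1_words h X1 hX1M b hbD ω ω0 ω1 ε ε0 ε1 homb hom0' hom1
    (by omega)
  by_cases h0 : p3better (2 * 2 ^ b.length) ω0 (2 ^ b.length) ω
  · obtain ⟨hl', hm'⟩ := za_meas_lt _ _ ω ω0 hlam h0
    rcases hIH with rfl | hIH
    · omega
    · rw [← hpow] at hl' hm'
      exact hIH S D M e σ w y h (by omega) X1 hX1M hcard1 (false :: b) rfl ω0 ε0 hom0' hl'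
        (by omega)
  by_cases h1 : p3better (2 * 2 ^ b.length) ω1 (2 ^ b.length) ω
  · obtain ⟨hl', hm'⟩ := za_meas_lt _ _ ω ω1 hlam h1
    rcases hIH with rfl | hIH
    · omega
    · rw [← hpow] at hl' hm'
      exact hIH S D M e σ w y h (by omega) X1 hX1M hcard1 (true :: b) rfl ω1 ε1 hom1 hl'
        (by omega)
  obtain ⟨⟨f0, hf0⟩, ⟨f1, hf1⟩⟩ := p3_core (2 ^ b.length) ω ω0 ω1 hu hd h0 h1
  have e0 := c1_same h X1 hX1M b false hbD ω ω0 ε ε0 homb hom0' f0 hf0 (by omega)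
  have e1 := c1_same h X1 hX1M b true hbD ω ω1 ε ε1 homb hom1 f1 hf1 (by omega)
  exact hsg ⟨e0.symm, e1.symm⟩

theorem c1_main (Λ q m : ℕ) : ∀ k, ∃ N, c1P Λ q m k N := by
  induction m with
  | zero => exact fun k => c1_step Λ q 0 k 0 (Or.inl rfl)
  | succ m ih =>
    intro k
    obtain ⟨N1, hN1⟩ := ih (k + 1)
    exact c1_step Λ q (m + 1) k N1 (Or.inr hN1)

/-- PART III -/
theorem cact_false_pr (Λ k : ℕ) : ∃ M G : ℕ, ∀ (S : Type) (e : S → Fin k) (σ : S → S → S × S)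
    (K : S → Finset ℕ) (y : Fin M → S), ¬ CACT Λ G e σ K y := by
  set m : ℕ := Λ * ((Λ + 1) * (Λ ^ 2 + 1)) + Λ * (Λ ^ 2 + 1) + Λ ^ 2 with hm
  obtain ⟨N1, hN1⟩ := c1_main Λ k m 0
  obtain ⟨N, hN⟩ := c1_hom Λ k 0 N1
  refine ⟨max N 1, 2 ^ (m + 1), ?_⟩
  intro S e σ K y h
  obtain ⟨w, y', hs⟩ := c1_sys (D := m + 1) (show 0 < max N 1 by
    exact lt_of_lt_of_le one_pos (le_max_right _ _)) le_rfl h
  obtain ⟨X, hX, hXc, ω, ε, hom⟩ := hN e σ w y' (range (max N 1))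
    (by rw [card_range]; exact le_max_left _ _) [] rfl
  have hlam : p3lam (2 ^ 0) ω ≤ Λ := by
    unfold p3lam
    rw [pow_zero, sum_range_one]
    exact (card_le_univ _).trans (by rw [Fintype.card_fin])
  refine hN1 S (m + 1) (max N 1) e σ w y' hs (by omega) X hX hXc [] rfl ω ε hom hlam ?_
  unfold zaMeas
  have h1 : p3lam (2 ^ 0) ω * ((Λ + 1) * (Λ ^ 2 + 1)) ≤ Λ * ((Λ + 1) * (Λ ^ 2 + 1)) :=
    Nat.mul_le_mul_right _ hlam
  have h2 : (Λ - p3nu (2 ^ 0) ω) * (Λ ^ 2 + 1) ≤ Λ * (Λ ^ 2 + 1) :=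
    Nat.mul_le_mul_right _ (Nat.sub_le _ _)
  have h3 : Λ ^ 2 - p3Psi (2 ^ 0) ω ≤ Λ ^ 2 := Nat.sub_le _ _
  omega

end Pool.Agent.XA
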